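import Pool.Agent.H381R4.CM.Stubs

/-! Task SYM of the project CM: symmetric convex bodies are completely mixable. -/

set_option autoImplicit false
open MeasureTheory Matrix Filter Topology
open scoped ENNReal BigOperators Pointwise

namespace Pool.Agent.H381CM

namespace SYMx

theorem unif_prob {d : ℕ} (K : Set (V d)) (h0 : 0 < volume K) (h1 : volume K < ⊤) :
    IsProbabilityMeasure (unif K) := by
  refine ⟨?_⟩
  unfold unif
  rw [Measure.smul_apply, Measure.restrict_apply_univ, smul_eq_mul]
  exact ENNReal.inv_mul_cancel h0.ne' h1.ne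

theorem isClosed_Pol {d : ℕ} {ι : Type} (u : ι → V d) : IsClosed (Pol u) := by
  unfold Pol
  rw [Set.ofPred_forall]
  refine isClosed_iInter fun k => ?_
  refine isClosed_le ?_ continuous_const
  unfold dotProduct
  fun_prop

theorem integral_unif {d : ℕ} (K : Set (V d)) (φ : V d → ℝ) :
    ∫ x, φ x ∂(unif K) = (volume K).toReal⁻¹ * ∫ x in K, φ x := by
  unfold unif
  rw [integral_smul_measure, ENNReal.toReal_inv, smul_eq_mul]

end SYMx

open SYMx in
theorem T_SYM : S_POL → S_CLO → S_APX → S_SYM := by
  intro hP hC hA d n hn C hconv hbdd h0 hsymm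
  have hae : C =ᵐ[volume] closure C := by
    rw [ae_eq_set]
    refine ⟨?_, ?_⟩
    · rw [Set.sdiff_eq_empty.mpr subset_closure, measure_empty]
    · refine measure_mono_null ?_ (hconv.addHaar_frontier volume)
      exact Set.sdiff_subset_sdiff_right interior_subset
  have hunif : unif C = unif (closure C) := by
    unfold unif
    rw [measure_congr hae, Measure.restrict_congr_set hae]
  rw [hunif]
  have hpos : 0 < volume (closure C) :=
    (isOpen_interior.measure_pos volume ⟨0, h0⟩).trans_le
      (measure_mono (interior_subset.trans subset_closure))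
  obtain ⟨R, hR⟩ := hbdd.closure.subset_closedBall 0
  have hfin : volume (closure C) < ⊤ := hbdd.closure.measure_lt_top
  set t : ℕ → ℝ := fun j => 1 + 1 / ((j : ℝ) + 1) with ht
  have ht1 : ∀ j, 1 < t j := by
    intro j
    have : 0 < 1 / ((j : ℝ) + 1) := by positivity
    simp only [ht]
    linarith
  have ht2 : ∀ j, t j ≤ 2 := by
    intro j
    have : 1 / ((j : ℝ) + 1) ≤ 1 := by
      rw [div_le_one (by positivity)]
      have : (0 : ℝ) ≤ j := Nat.cast_nonneg _
      linarith
    simp only [ht]
    linarith
  choose N u hspan hCK hKt using fun j => hA d C hconv hbdd h0 hsymm (t j) (ht1 j)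
  have hcl : ∀ j, closure C ⊆ Pol (u j) := fun j => closure_minimal (hCK j) (isClosed_Pol _)
  have hvt : ∀ j, volume (t j • closure C) = ENNReal.ofReal (t j ^ d) * volume (closure C) := by
    intro j
    rw [Measure.addHaar_smul, Module.finrank_fin_fun,
      abs_of_pos (pow_pos (zero_lt_one.trans (ht1 j)) d)]
  have hKfin : ∀ j, volume (Pol (u j)) < ⊤ := by
    intro j
    refine (measure_mono (hKt j)).trans_lt ?_
    rw [hvt]
    exact ENNReal.mul_lt_top ENNReal.ofReal_lt_top hfin
  have hKpos : ∀ j, 0 < volume (Pol (u j)) := fun j => hpos.trans_le (measure_mono (hcl j))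
  set v : ℝ := (volume (closure C)).toReal with hv
  set w : ℕ → ℝ := fun j => (volume (Pol (u j))).toReal with hw
  have hv0 : 0 < v := ENNReal.toReal_pos hpos.ne' hfin.ne
  have hw1 : ∀ j, v ≤ w j := fun j => ENNReal.toReal_mono (hKfin j).ne (measure_mono (hcl j))
  have hw2 : ∀ j, w j ≤ t j ^ d * v := by
    intro j
    have h2 := ENNReal.toReal_mono (ENNReal.mul_lt_top ENNReal.ofReal_lt_top hfin).ne
      ((measure_mono (hKt j)).trans (le_of_eq (hvt j)))
    rw [ENNReal.toReal_mul, ENNReal.toReal_ofReal
      (pow_pos (zero_lt_one.trans (ht1 j)) d).le] at h2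
    exact h2
  have htl : Tendsto t atTop (𝓝 1) := by
    have h2 := (tendsto_one_div_add_atTop_nhds_zero_nat (𝕜 := ℝ)).const_add 1
    rwa [add_zero] at h2
  have hwl : Tendsto w atTop (𝓝 v) := by
    refine tendsto_of_tendsto_of_tendsto_of_le_of_le tendsto_const_nhds ?_ hw1 hw2
    have h2 := (htl.pow d).mul_const v
    rwa [one_pow, one_mul] at h2
  refine hC d n (by omega) (fun j => unif (Pol (u j))) (unif (closure C))
    (fun j => unif_prob _ (hKpos j) (hKfin j)) (unif_prob _ hpos hfin)
    (fun j => hP d n hn (Fin (N j)) (u j) (hspan j)) ?_ ?_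
  · intro ε _
    refine ⟨Metric.closedBall 0 (2 * R), isCompact_closedBall _ _, fun j => ?_⟩
    have hsub : Pol (u j) ⊆ Metric.closedBall 0 (2 * R) := by
      intro x hx
      obtain ⟨y, hy, rfl⟩ := hKt j hx
      have hy' := hR hy
      rw [mem_closedBall_zero_iff] at hy' ⊢
      show ‖t j • y‖ ≤ _
      rw [norm_smul, Real.norm_of_nonneg (zero_lt_one.trans (ht1 j)).le]
      exact mul_le_mul (ht2 j) hy' (norm_nonneg _) zero_le_two
    have h2 : unif (Pol (u j)) (Metric.closedBall 0 (2 * R))ᶜ = 0 := by
      unfold unif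
      rw [Measure.smul_apply, Measure.restrict_apply
        (Metric.isClosed_closedBall.measurableSet.compl)]
      have h3 : (Metric.closedBall (0 : V d) (2 * R))ᶜ ∩ Pol (u j) = ∅ := by
        rw [Set.eq_empty_iff_forall_notMem]
        rintro x ⟨hx1, hx2⟩
        exact hx1 (hsub hx2)
      rw [h3, measure_empty, smul_zero]
    rw [h2]
    exact zero_le
  · intro φ
    simp only [integral_unif]
    have hwinv : Tendsto (fun j => (w j)⁻¹) atTop (𝓝 v⁻¹) := hwl.inv₀ hv0.ne'
    refine hwinv.mul ?_
    rw [tendsto_iff_norm_sub_tendsto_zero]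
    have h3 : Tendsto (fun j => ‖φ‖ * (w j - v)) atTop (𝓝 0) := by
      have h4 := (hwl.sub_const v).const_mul ‖φ‖
      rwa [sub_self, mul_zero] at h4
    refine squeeze_zero (fun _ => norm_nonneg _) (fun j => ?_) h3
    have hint : IntegrableOn (fun x => φ x) (Pol (u j)) := by
      refine Measure.integrableOn_of_bounded (M := ‖φ‖) (hKfin j).ne
        φ.continuous.aestronglyMeasurable ?_
      filter_upwards with x
      exact φ.norm_coe_le_norm x
    rw [← setIntegral_sdiff isClosed_closure.measurableSet hint (hcl j)]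
    have h5 : volume.real (Pol (u j) \ closure C) = w j - v := by
      unfold Measure.real
      rw [measure_sdiff (hcl j) isClosed_closure.measurableSet.nullMeasurableSet hfin.ne,
        ENNReal.toReal_sub_of_le (measure_mono (hcl j)) (hKfin j).ne]
    rw [← h5]
    refine norm_setIntegral_le_of_norm_le_const ?_ fun x _ => φ.norm_coe_le_norm x
    exact (measure_mono Set.sdiff_subset).trans_lt (hKfin j)

end Pool.Agent.H381CM
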